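import Mathlib

/-!
# Box products, nabla products and monotone normality

Definitions for problem MP_1ca6f4_lc. An ordinal `α` is regarded as the space `Set.Iio α` of all
smaller ordinals, with the topology inherited from Mathlib's order topology on `Ordinal`; since
`Set.Iio α` is an initial segment this is the order topology of `α` (see the `example` below).
-/

open Set Topology Ordinal

namespace Pool.Agent.H80Nabla

universe u v

/-- The box topology on `ℕ → X`: a base consists of all products `∏ U n` with each `U n` open. -/
@[reducible] def boxTopology (X : Type u) [TopologicalSpace X] : TopologicalSpace (ℕ → X) :=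
  TopologicalSpace.generateFrom
    {B | ∃ U : ℕ → Set X, (∀ n, IsOpen (U n)) ∧ B = {x | ∀ n, x n ∈ U n}}

/-- Two sequences are identified when they differ in only finitely many places. -/
def modFinite (X : Type u) : Setoid (ℕ → X) where
  r x y := {n | x n ≠ y n}.Finite
  iseqv :=
    { refl := fun x => by simp
      symm := fun {x y} h => by
        refine h.subset ?_
        intro n hn
        exact fun e => hn e.symm
      trans := fun {x y z} h₁ h₂ => by
        refine (h₁.union h₂).subset ?_
        intro n hn
        by_contra hcon
        simp only [mem_union, mem_ofPred_eq, not_or, not_not] at hcon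
        exact hn (hcon.1.trans hcon.2) }

/-- The nabla product `∇ X^ω`. -/
def Nabla (X : Type u) : Type u := Quotient (modFinite X)

/-- The quotient map onto the nabla product. -/
def Nabla.mk {X : Type u} (x : ℕ → X) : Nabla X := Quotient.mk (modFinite X) x

/-- The nabla product carries the quotient topology of the box topology. -/
instance Nabla.instTopologicalSpace (X : Type u) [TopologicalSpace X] :
    TopologicalSpace (Nabla X) :=
  TopologicalSpace.coinduced Nabla.mk (boxTopology X)

/-- Monotone normality, as in the problem file. -/
def MonotonicallyNormal (Z : Type u) [TopologicalSpace Z] : Prop :=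
  ∃ H : Z → Set Z → Set Z,
    (∀ (x : Z) (U : Set Z), IsOpen U → x ∈ U → IsOpen (H x U) ∧ x ∈ H x U ∧ H x U ⊆ U) ∧
    (∀ (x y : Z) (U V : Set Z), IsOpen U → x ∈ U → IsOpen V → y ∈ V →
      (H x U ∩ H y V).Nonempty → x ∈ V ∨ y ∈ U)

/-- Sanity check: the topology of the space `Set.Iio α` is its order topology. -/
example (α : Ordinal.{0}) : OrderTopology (Set.Iio α) := inferInstance

end Pool.Agent.H80Nabla
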