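import Pool.Agent.H80Nabla.Defs

/-!
# Proof that `Δ(ω + 1)` implies `Δ(ω · ω + 1)`

The point is that `ω · ω + 1` embeds into `(ω + 1) × (ω + 1)`, and that the nabla product of
countably many copies of `Y × Y` is the nabla product of countably many copies of `Y`.
-/

open Set Topology Ordinal

namespace Pool.Agent.H80Nabla

universe u v

theorem Nabla.mk_eq_mk {X : Type u} (x y : ℕ → X) :
    Nabla.mk x = Nabla.mk y ↔ {n | x n ≠ y n}.Finite :=
  ⟨fun h => Quotient.exact h, fun h => Quotient.sound h⟩

theorem Nabla.mk_surjective {X : Type u} (p : Nabla X) : ∃ x : ℕ → X, p = Nabla.mk x := by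
  induction p using Quotient.ind with | _ x => exact ⟨x, rfl⟩

/-! ### Monotone normality passes to subspaces -/

theorem MonotonicallyNormal.of_isEmbedding {Z : Type u} {W : Type v} [TopologicalSpace Z]
    [TopologicalSpace W] {e : Z → W} (he : IsEmbedding e) (h : MonotonicallyNormal W) :
    MonotonicallyNormal Z := by
  classical
  obtain ⟨H, h1, h2⟩ := h
  have hc : ∀ U : Set Z, IsOpen U → ∃ U' : Set W, IsOpen U' ∧ e ⁻¹' U' = U := fun U hU =>
    he.isInducing.isOpen_iff.1 hU
  choose! c hc1 hc2 using hc
  refine ⟨fun z U => e ⁻¹' (H (e z) (c U)), ?_, ?_⟩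
  · intro x U hU hx
    have hx' : e x ∈ c U := by
      have : x ∈ e ⁻¹' (c U) := by rw [hc2 U hU]; exact hx
      exact this
    obtain ⟨a, b, d⟩ := h1 (e x) (c U) (hc1 U hU) hx'
    refine ⟨a.preimage he.continuous, b, ?_⟩
    intro y hy
    have := d hy
    rw [← hc2 U hU]
    exact this
  · rintro x y U V hU hx hV hy ⟨z, hz1, hz2⟩
    have hx' : e x ∈ c U := by
      have : x ∈ e ⁻¹' (c U) := by rw [hc2 U hU]; exact hx
      exact this
    have hy' : e y ∈ c V := by
      have : y ∈ e ⁻¹' (c V) := by rw [hc2 V hV]; exact hy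
      exact this
    rcases h2 (e x) (e y) (c U) (c V) (hc1 U hU) hx' (hc1 V hV) hy' ⟨e z, hz1, hz2⟩ with h | h
    · left
      rw [← hc2 V hV]; exact h
    · right
      rw [← hc2 U hU]; exact h

/-! ### Open sets of the nabla product -/

theorem box_isOpen_iff {X : Type u} [TopologicalSpace X] (S : Set (ℕ → X)) :
    IsOpen[boxTopology X] S ↔ ∀ x ∈ S, ∃ U : ℕ → Set X, (∀ n, IsOpen (U n)) ∧ (∀ n, x n ∈ U n) ∧
      ∀ y, (∀ n, y n ∈ U n) → y ∈ S := by
  constructor
  · intro h
    induction h with
    | basic s hs =>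
      obtain ⟨U, hU, rfl⟩ := hs
      intro x hx
      exact ⟨U, hU, hx, fun y hy => hy⟩
    | univ =>
      intro x _
      exact ⟨fun _ => univ, fun _ => isOpen_univ, fun _ => mem_univ _, fun _ _ => mem_univ _⟩
    | inter s t _ _ ihs iht =>
      intro x hx
      obtain ⟨U, hU, hxU, hU'⟩ := ihs x hx.1
      obtain ⟨V, hV, hxV, hV'⟩ := iht x hx.2
      exact ⟨fun n => U n ∩ V n, fun n => (hU n).inter (hV n), fun n => ⟨hxU n, hxV n⟩,
        fun y hy => ⟨hU' y fun n => (hy n).1, hV' y fun n => (hy n).2⟩⟩
    | sUnion S _ ih =>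
      rintro x ⟨s, hs, hx⟩
      obtain ⟨U, hU, hxU, hU'⟩ := ih s hs x hx
      exact ⟨U, hU, hxU, fun y hy => ⟨s, hs, hU' y hy⟩⟩
  · intro h
    have : S = ⋃₀ {B | (∃ U : ℕ → Set X, (∀ n, IsOpen (U n)) ∧ B = {x | ∀ n, x n ∈ U n}) ∧
        B ⊆ S} := by
      ext x
      constructor
      · intro hx
        obtain ⟨U, hU, hxU, hU'⟩ := h x hx
        exact ⟨{x | ∀ n, x n ∈ U n}, ⟨⟨U, hU, rfl⟩, hU'⟩, hxU⟩
      · rintro ⟨B, ⟨_, hB⟩, hx⟩
        exact hB hx
    rw [this]
    refine TopologicalSpace.GenerateOpen.sUnion _ ?_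
    rintro B ⟨hB, _⟩
    exact TopologicalSpace.GenerateOpen.basic _ hB

theorem nabla_isOpen_iff {X : Type u} [TopologicalSpace X] (S : Set (Nabla X)) :
    IsOpen S ↔ ∀ x : ℕ → X, Nabla.mk x ∈ S →
      ∃ U : ℕ → Set X, (∀ n, IsOpen (U n)) ∧ (∀ n, x n ∈ U n) ∧
      ∀ y : ℕ → X, {n | y n ∉ U n}.Finite → Nabla.mk y ∈ S := by
  classical
  have h0 : IsOpen S ↔ IsOpen[boxTopology X] (Nabla.mk ⁻¹' S) := by
    exact isOpen_coinduced
  rw [h0, box_isOpen_iff]
  constructor
  · intro h x hx
    obtain ⟨U, hU, hxU, hU'⟩ := h x hx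
    refine ⟨U, hU, hxU, ?_⟩
    intro y hy
    have hz : Nabla.mk (fun n => if y n ∈ U n then y n else x n) ∈ S :=
      hU' (fun n => if y n ∈ U n then y n else x n) (by
        intro n
        by_cases hn : y n ∈ U n
        · simp [hn]
        · simpa [hn] using hxU n)
    have : Nabla.mk (fun n => if y n ∈ U n then y n else x n) = Nabla.mk y := by
      rw [Nabla.mk_eq_mk]
      refine hy.subset ?_
      intro n hn hn'
      apply hn
      simp [hn']
    rw [this] at hz
    exact hz
  · intro h x hx
    obtain ⟨U, hU, hxU, hU'⟩ := h x hx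
    refine ⟨U, hU, hxU, ?_⟩
    intro y hy
    apply hU'
    have : {n | y n ∉ U n} = ∅ := by
      ext n
      exact ⟨fun h => h (hy n), fun h => h.elim⟩
    rw [this]
    exact finite_empty

/-! ### The embedding of nabla products -/

/-- Interleave the two coordinates. -/
def weave {X : Type u} {Y : Type v} (f : X → Y × Y) (x : ℕ → X) : ℕ → Y :=
  fun k => if k % 2 = 0 then (f (x (k / 2))).1 else (f (x (k / 2))).2

theorem weave_even {X : Type u} {Y : Type v} (f : X → Y × Y) (x : ℕ → X) (n : ℕ) :
    weave f x (2 * n) = (f (x n)).1 := by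
  simp [weave]

theorem weave_odd {X : Type u} {Y : Type v} (f : X → Y × Y) (x : ℕ → X) (n : ℕ) :
    weave f x (2 * n + 1) = (f (x n)).2 := by
  have h1 : (2 * n + 1) % 2 = 1 := by omega
  have h2 : (2 * n + 1) / 2 = n := by omega
  simp [weave, h1, h2]

theorem weave_rel {X : Type u} {Y : Type v} (f : X → Y × Y) (x y : ℕ → X)
    (h : {n | x n ≠ y n}.Finite) : {n | weave f x n ≠ weave f y n}.Finite := by
  have : {n | weave f x n ≠ weave f y n} ⊆
      (fun n => 2 * n) '' {n | x n ≠ y n} ∪ (fun n => 2 * n + 1) '' {n | x n ≠ y n} := by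
    intro k hk
    rcases Nat.even_or_odd' k with ⟨n, rfl | rfl⟩
    · left
      refine ⟨n, ?_, rfl⟩
      intro e
      apply hk
      rw [weave_even, weave_even, e]
    · right
      refine ⟨n, ?_, rfl⟩
      intro e
      apply hk
      rw [weave_odd, weave_odd, e]
  exact ((h.image _).union (h.image _)).subset this

theorem weave_rel_inv {X : Type u} {Y : Type v} (f : X → Y × Y) (hf : Function.Injective f)
    (x y : ℕ → X) (h : {n | weave f x n ≠ weave f y n}.Finite) : {n | x n ≠ y n}.Finite := by
  have : {n | x n ≠ y n} ⊆ (fun k => k / 2) '' {n | weave f x n ≠ weave f y n} := by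
    intro n hn
    by_cases h1 : (f (x n)).1 = (f (y n)).1
    · refine ⟨2 * n + 1, ?_, by show (2 * n + 1) / 2 = n; omega⟩
      show weave f x (2 * n + 1) ≠ weave f y (2 * n + 1)
      rw [weave_odd, weave_odd]
      intro h2
      exact hn (hf (Prod.ext h1 h2))
    · refine ⟨2 * n, ?_, by show (2 * n) / 2 = n; omega⟩
      show weave f x (2 * n) ≠ weave f y (2 * n)
      rw [weave_even, weave_even]
      exact h1
  exact (h.image _).subset this

/-- The induced map of nabla products. -/
def nablaWeave {X : Type u} {Y : Type v} (f : X → Y × Y) : Nabla X → Nabla Y :=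
  Quotient.map' (s₁ := modFinite X) (s₂ := modFinite Y) (weave f)
    (fun x y h => weave_rel f x y h)

theorem nablaWeave_mk {X : Type u} {Y : Type v} (f : X → Y × Y) (x : ℕ → X) :
    nablaWeave f (Nabla.mk x) = Nabla.mk (weave f x) := rfl

theorem nablaWeave_injective {X : Type u} {Y : Type v} (f : X → Y × Y)
    (hf : Function.Injective f) : Function.Injective (nablaWeave f) := by
  intro p q
  obtain ⟨x, rfl⟩ := Nabla.mk_surjective p
  obtain ⟨y, rfl⟩ := Nabla.mk_surjective q
  intro h
  rw [nablaWeave_mk, nablaWeave_mk, Nabla.mk_eq_mk] at h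
  rw [Nabla.mk_eq_mk]
  exact weave_rel_inv f hf x y h

theorem nablaWeave_isEmbedding {X : Type u} {Y : Type v} [TopologicalSpace X]
    [TopologicalSpace Y] (f : X → Y × Y) (hf : IsEmbedding f) :
    IsEmbedding (nablaWeave f) := by
  classical
  refine ⟨⟨le_antisymm ?_ ?_⟩, nablaWeave_injective f hf.injective⟩
  · -- continuity
    rw [← continuous_iff_le_induced, continuous_def]
    intro S hS
    rw [nabla_isOpen_iff] at hS ⊢
    intro x hx
    obtain ⟨U, hU, hxU, hU'⟩ := hS (weave f x) hx
    refine ⟨fun n => f ⁻¹' (U (2 * n) ×ˢ U (2 * n + 1)), ?_, ?_, ?_⟩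
    · intro n
      exact ((hU _).prod (hU _)).preimage hf.continuous
    · intro n
      refine ⟨?_, ?_⟩
      · rw [← weave_even]; exact hxU _
      · rw [← weave_odd]; exact hxU _
    · intro y hy
      apply hU'
      have : {n | weave f y n ∉ U n} ⊆
          (fun n => 2 * n) '' {n | y n ∉ f ⁻¹' (U (2 * n) ×ˢ U (2 * n + 1))} ∪
          (fun n => 2 * n + 1) '' {n | y n ∉ f ⁻¹' (U (2 * n) ×ˢ U (2 * n + 1))} := by
        intro k hk
        rcases Nat.even_or_odd' k with ⟨n, rfl | rfl⟩
        · left
          refine ⟨n, ?_, rfl⟩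
          intro e
          apply hk
          rw [weave_even]
          exact e.1
        · right
          refine ⟨n, ?_, rfl⟩
          intro e
          apply hk
          rw [weave_odd]
          exact e.2
      exact ((hy.image _).union (hy.image _)).subset this
  · -- openness onto the image
    intro S hS
    rw [isOpen_induced_iff]
    refine ⟨⋃₀ {T : Set (Nabla Y) | IsOpen T ∧ nablaWeave f ⁻¹' T ⊆ S},
      isOpen_sUnion fun T hT => hT.1, ?_⟩
    apply Subset.antisymm
    · rintro p ⟨T, ⟨_, hT⟩, hp⟩
      exact hT hp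
    · intro p
      obtain ⟨x, rfl⟩ := Nabla.mk_surjective p
      intro hx
      obtain ⟨U, hU, hxU, hU'⟩ := (nabla_isOpen_iff S).1 hS x hx
      have key : ∀ n, ∃ V W : Set Y, IsOpen V ∧ IsOpen W ∧ (f (x n)).1 ∈ V ∧ (f (x n)).2 ∈ W ∧
          f ⁻¹' (V ×ˢ W) ⊆ U n := by
        intro n
        obtain ⟨O, hO, hOU⟩ := hf.isInducing.isOpen_iff.1 (hU n)
        have hxO : f (x n) ∈ O := by
          have : x n ∈ f ⁻¹' O := by rw [hOU]; exact hxU n
          exact this
        obtain ⟨V, W, hV, hW, h1, h2, h3⟩ := isOpen_prod_iff.1 hO (f (x n)).1 (f (x n)).2 hxO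
        refine ⟨V, W, hV, hW, h1, h2, ?_⟩
        rw [← hOU]
        exact preimage_mono h3
      choose V W hV hW hxV hxW hVW using key
      refine ⟨{q | ∃ z : ℕ → Y, q = Nabla.mk z ∧
        {n | ¬ (z (2 * n) ∈ V n ∧ z (2 * n + 1) ∈ W n)}.Finite}, ⟨?_, ?_⟩, ?_⟩
      · rw [nabla_isOpen_iff]
        rintro z₀ ⟨z, hz, hz'⟩
        have hrel : {n | z₀ n ≠ z n}.Finite := (Nabla.mk_eq_mk _ _).1 hz
        -- use the box given by `V` and `W` wherever `z₀` lies in it
        refine ⟨fun k => if k % 2 = 0 then (if z₀ k ∈ V (k / 2) then V (k / 2) else univ)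
          else (if z₀ k ∈ W (k / 2) then W (k / 2) else univ), ?_, ?_, ?_⟩
        · intro k
          dsimp only
          split_ifs
          · exact hV _
          · exact isOpen_univ
          · exact hW _
          · exact isOpen_univ
        · intro k
          dsimp only
          split_ifs with h1 h2 h3
          · exact h2
          · exact mem_univ _
          · exact h3
          · exact mem_univ _
        · intro y hy
          refine ⟨y, rfl, ?_⟩
          have hfin : ((fun k => k / 2) '' {n | z₀ n ≠ z n} ∪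
              {n | ¬ (z (2 * n) ∈ V n ∧ z (2 * n + 1) ∈ W n)} ∪
              (fun k => k / 2) '' {k | y k ∉ (if k % 2 = 0 then
                (if z₀ k ∈ V (k / 2) then V (k / 2) else univ)
                else (if z₀ k ∈ W (k / 2) then W (k / 2) else univ))}).Finite :=
            ((hrel.image _).union hz').union (hy.image _)
          refine hfin.subset ?_
          intro n hn
          by_contra hcon
          simp only [mem_union, not_or] at hcon
          obtain ⟨⟨hc1, hc2⟩, hc3⟩ := hcon
          simp only [mem_ofPred_eq, not_not] at hc2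
          have e1 : z₀ (2 * n) = z (2 * n) := by
            by_contra hne
            exact hc1 ⟨2 * n, hne, by show (2 * n) / 2 = n; omega⟩
          have e2 : z₀ (2 * n + 1) = z (2 * n + 1) := by
            by_contra hne
            exact hc1 ⟨2 * n + 1, hne, by show (2 * n + 1) / 2 = n; omega⟩
          have g1 : (2 * n) % 2 = 0 := by omega
          have g2 : (2 * n) / 2 = n := by omega
          have g3 : (2 * n + 1) % 2 = 1 := by omega
          have g4 : (2 * n + 1) / 2 = n := by omega
          apply hn
          constructor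
          · by_contra hne
            refine hc3 ⟨2 * n, ?_, g2⟩
            simp only [mem_ofPred_eq, g1, g2, if_true]
            rw [e1, if_pos hc2.1]
            exact hne
          · by_contra hne
            refine hc3 ⟨2 * n + 1, ?_, g4⟩
            simp only [mem_ofPred_eq, g3, g4]
            rw [if_neg (by norm_num), e2, if_pos hc2.2]
            exact hne
      · intro q
        obtain ⟨y, rfl⟩ := Nabla.mk_surjective q
        rintro ⟨z, hz, hz'⟩
        rw [nablaWeave_mk] at hz
        have hrel : {n | weave f y n ≠ z n}.Finite := (Nabla.mk_eq_mk _ _).1 hz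
        apply hU'
        have hfin : ((fun k => k / 2) '' {n | weave f y n ≠ z n} ∪
              {n | ¬ (z (2 * n) ∈ V n ∧ z (2 * n + 1) ∈ W n)}).Finite :=
          (hrel.image _).union hz'
        refine hfin.subset ?_
        intro n hn
        by_contra hcon
        simp only [mem_union, not_or] at hcon
        obtain ⟨hc1, hc2⟩ := hcon
        simp only [mem_ofPred_eq, not_not] at hc2
        have e1 : weave f y (2 * n) = z (2 * n) := by
          by_contra hne
          exact hc1 ⟨2 * n, hne, by show (2 * n) / 2 = n; omega⟩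
        have e2 : weave f y (2 * n + 1) = z (2 * n + 1) := by
          by_contra hne
          exact hc1 ⟨2 * n + 1, hne, by show (2 * n + 1) / 2 = n; omega⟩
        apply hn
        apply hVW n
        rw [weave_even] at e1
        rw [weave_odd] at e2
        refine ⟨?_, ?_⟩
        · rw [e1]; exact hc2.1
        · rw [e2]; exact hc2.2
      · refine ⟨weave f x, rfl, ?_⟩
        have : {n | ¬ (weave f x (2 * n) ∈ V n ∧ weave f x (2 * n + 1) ∈ W n)} = ∅ := by
          ext n
          simp only [mem_ofPred_eq, mem_empty_iff_false, iff_false, not_not]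
          rw [weave_even, weave_odd]
          exact ⟨hxV n, hxW n⟩
        rw [this]
        exact finite_empty

/-! ### Maps into `ω + 1` -/

/-- The point `n` of `ω + 1`. -/
noncomputable def fin (n : ℕ) : (Iio (ω + 1 : Ordinal.{0})) :=
  ⟨(n : Ordinal.{0}), (Ordinal.natCast_lt_omega0 n).trans (lt_add_one ω)⟩

/-- The point `ω` of `ω + 1`. -/
noncomputable def top : (Iio (ω + 1 : Ordinal.{0})) := ⟨ω, lt_add_one ω⟩

theorem fin_lt_top (n : ℕ) : fin n < top := Ordinal.natCast_lt_omega0 n

theorem fin_injective : Function.Injective fin := by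
  intro a b h
  have : (a : Ordinal.{0}) = b := congrArg Subtype.val h
  exact_mod_cast this

theorem eq_fin_or_top (y : (Iio (ω + 1 : Ordinal.{0}))) : (∃ n, y = fin n) ∨ y = top := by
  obtain ⟨y, hy⟩ := y
  have hy' : y ≤ ω := by
    rw [← Order.lt_succ_iff]
    exact hy
  rcases hy'.lt_or_eq with h | h
  · left
    obtain ⟨n, rfl⟩ := Ordinal.lt_omega0.1 h
    exact ⟨n, rfl⟩
  · right
    subst h
    rfl

/-- The map into `ω + 1` with prescribed fibres. -/
noncomputable def toOmega {X : Type u} (C : ℕ → Set X) (x : X) : (Iio (ω + 1 : Ordinal.{0})) := by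
  classical exact if h : ∃ n, x ∈ C n then fin h.choose else top

theorem toOmega_eq_fin_iff {X : Type u} {C : ℕ → Set X}
    (hd : ∀ m n x, x ∈ C m → x ∈ C n → m = n) (x : X) (n : ℕ) :
    toOmega C x = fin n ↔ x ∈ C n := by
  classical
  unfold toOmega
  split_ifs with h
  · constructor
    · intro e
      have := fin_injective e
      rw [← this]
      exact h.choose_spec
    · intro hx
      rw [hd _ _ x h.choose_spec hx]
  · constructor
    · intro e
      exact absurd e (fin_lt_top n).ne'
    · intro hx
      exact absurd ⟨n, hx⟩ h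

theorem continuous_toOmega {X : Type u} [TopologicalSpace X] {C : ℕ → Set X}
    (hd : ∀ m n x, x ∈ C m → x ∈ C n → m = n) (hC : ∀ n, IsClopen (C n)) :
    Continuous (toOmega C) := by
  classical
  have hpre : ∀ n, toOmega C ⁻¹' {fin n} = C n := by
    intro n
    ext x
    simp only [mem_preimage, mem_singleton_iff]
    exact toOmega_eq_fin_iff hd x n
  rw [OrderTopology.topology_eq_generate_intervals (α := (Iio (ω + 1 : Ordinal.{0})))]
  rw [continuous_generateFrom_iff]
  rintro s ⟨a, rfl | rfl⟩
  · -- `Ioi a`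
    rcases eq_fin_or_top a with ⟨n, rfl⟩ | rfl
    · have : toOmega C ⁻¹' (Ioi (fin n)) = (⋃ i ∈ Finset.range (n + 1), C i)ᶜ := by
        ext x
        simp only [mem_preimage, mem_Ioi, Finset.mem_range, mem_compl_iff, mem_iUnion, not_exists]
        constructor
        · intro h i hi hx
          rw [← toOmega_eq_fin_iff hd] at hx
          rw [hx] at h
          have h' : (n : Ordinal.{0}) < (i : Ordinal.{0}) := h
          have h'' : n < i := by exact_mod_cast h'
          omega
        · intro h
          rcases eq_fin_or_top (toOmega C x) with ⟨i, hi⟩ | hi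
          · rw [hi]
            have hx := (toOmega_eq_fin_iff hd x i).1 hi
            have hni : n < i := by
              by_contra hcon
              exact h i (by omega) hx
            have : (n : Ordinal.{0}) < (i : Ordinal.{0}) := by exact_mod_cast hni
            exact this
          · rw [hi]
            exact fin_lt_top n
      rw [this]
      exact (isClosed_biUnion_finset fun i _ => (hC i).isClosed).isOpen_compl
    · have : toOmega C ⁻¹' (Ioi top) = ∅ := by
        ext x
        simp only [mem_preimage, mem_Ioi, mem_empty_iff_false, iff_false, not_lt]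
        rcases eq_fin_or_top (toOmega C x) with ⟨i, hi⟩ | hi
        · rw [hi]; exact (fin_lt_top i).le
        · rw [hi]
      rw [this]
      exact isOpen_empty
  · -- `Iio a`
    have : toOmega C ⁻¹' (Iio a) = ⋃ i ∈ {i : ℕ | fin i < a}, C i := by
      ext x
      simp only [mem_preimage, mem_Iio, mem_ofPred_eq, mem_iUnion, exists_prop]
      constructor
      · intro h
        rcases eq_fin_or_top (toOmega C x) with ⟨i, hi⟩ | hi
        · exact ⟨i, hi ▸ h, (toOmega_eq_fin_iff hd x i).1 hi⟩
        · exfalso
          rw [hi] at h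
          rcases eq_fin_or_top a with ⟨n, rfl⟩ | rfl
          · exact absurd h (fin_lt_top n).le.not_gt
          · exact lt_irrefl _ h
      · rintro ⟨i, hi, hx⟩
        rw [(toOmega_eq_fin_iff hd x i).2 hx]
        exact hi
    rw [this]
    exact isOpen_biUnion fun i _ => (hC i).isOpen

/-! ### `ω · ω + 1` embeds into `(ω + 1) × (ω + 1)` -/

theorem isOpen_lt {α : Ordinal.{0}} (a : Ordinal.{0}) :
    IsOpen {x : (Iio α) | x.1 < a} := by
  by_cases ha : a < α
  · have h : IsOpen (Iio (show (Iio α) from ⟨a, ha⟩)) := isOpen_Iio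
    exact h
  · have : {x : (Iio α) | x.1 < a} = Set.univ := by
      ext x
      exact ⟨fun _ => mem_univ _, fun _ => x.2.trans_le (not_lt.1 ha)⟩
    rw [this]
    exact isOpen_univ

theorem isOpen_gt {α : Ordinal.{0}} (a : Ordinal.{0}) :
    IsOpen {x : (Iio α) | a < x.1} := by
  by_cases ha : a < α
  · have h : IsOpen (Ioi (show (Iio α) from ⟨a, ha⟩)) := isOpen_Ioi
    exact h
  · have : {x : (Iio α) | a < x.1} = ∅ := by
      ext x
      exact ⟨fun h => absurd (lt_trans h x.2) ha, fun h => h.elim⟩
    rw [this]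
    exact isOpen_empty

theorem isClopen_interval {α : Ordinal.{0}} (a b : Ordinal.{0}) :
    IsClopen {x : (Iio α) | a < x.1 ∧ x.1 ≤ b} := by
  have h1 : {x : (Iio α) | a < x.1 ∧ x.1 ≤ b} =
      {x : (Iio α) | a < x.1} ∩ {x : (Iio α) | x.1 < b + 1} := by
    ext x
    exact and_congr_right fun _ => Order.lt_add_one_iff.symm
  have h2 : {x : (Iio α) | a < x.1 ∧ x.1 ≤ b}ᶜ =
      {x : (Iio α) | x.1 < a + 1} ∪ {x : (Iio α) | b < x.1} := by
    ext x
    constructor
    · intro h
      by_cases h3 : x.1 < a + 1
      · exact Or.inl h3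
      · right
        by_contra h4
        exact h ⟨by
          rw [Order.lt_add_one_iff] at h3
          exact not_le.1 h3, not_lt.1 h4⟩
    · rintro (h | h) ⟨h3, h4⟩
      · exact absurd (Order.lt_add_one_iff.1 h) (not_le.2 h3)
      · exact absurd h (not_lt.2 h4)
  constructor
  · rw [← isOpen_compl_iff, h2]
    exact (isOpen_lt _).union (isOpen_gt _)
  · rw [h1]
    exact (isOpen_gt _).inter (isOpen_lt _)

/-- A point that is not a limit ordinal is isolated. -/
theorem isOpen_singleton_of_not_limit {α : Ordinal.{0}} (x : (Iio α))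
    (hx : ¬ Order.IsSuccLimit x.1) : IsOpen {x} := by
  rcases zero_or_succ_or_isSuccLimit x.1 with h | ⟨a, h⟩ | h
  · have : ({x} : Set ((Iio α))) = {y : (Iio α) | y.1 < 1} := by
      ext y
      constructor
      · rintro rfl
        show y.1 < 1
        rw [h]
        exact zero_lt_one
      · intro hy
        have : y.1 = 0 := Order.lt_one_iff.1 hy
        exact Subtype.ext (this.trans h.symm)
    rw [this]
    exact isOpen_lt 1
  · have : ({x} : Set ((Iio α))) = {y : (Iio α) | a < y.1 ∧ y.1 ≤ x.1} := by
      ext y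
      constructor
      · rintro rfl
        exact ⟨by rw [← h]; exact Order.lt_succ a, le_rfl⟩
      · rintro ⟨h1, h2⟩
        refine Subtype.ext (le_antisymm h2 ?_)
        rw [← h]
        exact Order.succ_le_of_lt h1
    rw [this]
    exact (isClopen_interval a x.1).isOpen
  · exact absurd h hx

instance compactSpace_succ (a : Ordinal.{0}) : CompactSpace ((Iio (a + 1 : Ordinal.{0}))) := by
  have hcomp : CompactSpace (Icc (0 : Ordinal.{0}) a) := isCompact_iff_compactSpace.1 isCompact_Icc
  let g : Icc (0 : Ordinal.{0}) a → (Iio (a + 1 : Ordinal.{0})) := fun x =>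
    ⟨x.1, Order.lt_add_one_iff.2 x.2.2⟩
  have hg : Function.Surjective g := by
    rintro ⟨x, hx⟩
    exact ⟨⟨x, bot_le, Order.lt_add_one_iff.1 hx⟩, rfl⟩
  have hc : Continuous g := by
    rw [OrderTopology.topology_eq_generate_intervals (α := (Iio (a + 1 : Ordinal.{0})))]
    rw [continuous_generateFrom_iff]
    rintro s ⟨b, rfl | rfl⟩
    · have : IsOpen ((Subtype.val : Icc (0 : Ordinal.{0}) a → Ordinal.{0}) ⁻¹' (Ioi b.1)) :=
        isOpen_Ioi.preimage continuous_subtype_val
      exact this
    · have : IsOpen ((Subtype.val : Icc (0 : Ordinal.{0}) a → Ordinal.{0}) ⁻¹' (Iio b.1)) :=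
        isOpen_Iio.preimage continuous_subtype_val
      exact this
  exact hg.compactSpace hc

/-- `ω · ω + 1` is countable. -/
theorem exists_code : ∃ e : (Iio (ω * ω + 1 : Ordinal.{0})) → ℕ, Function.Injective e := by
  have h : Countable ((Iio (ω * ω + 1 : Ordinal.{0}))) := by
    have : (Set.Iio (ω * ω + 1 : Ordinal.{0})).Countable := by
      rw [← Cardinal.le_aleph0_iff_set_countable, Cardinal.mk_Iio_ordinal]
      simp
    exact this.to_subtype
  exact h.exists_injective_nat

/-- The blocks `(ω · m, ω · (m + 1)]`. -/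
def block (m : ℕ) : Set ((Iio (ω * ω + 1 : Ordinal.{0}))) :=
  {x | ω * (m : Ordinal.{0}) < x.1 ∧ x.1 ≤ ω * ((m : Ordinal.{0}) + 1)}

theorem block_disjoint (m n : ℕ) (x : (Iio (ω * ω + 1 : Ordinal.{0}))) (hm : x ∈ block m)
    (hn : x ∈ block n) : m = n := by
  by_contra hne
  wlog hlt : m < n generalizing m n
  · exact this n m hn hm (fun h => hne h.symm) (by omega)
  have h1 : ω * ((m : Ordinal.{0}) + 1) ≤ ω * (n : Ordinal.{0}) := by
    gcongr
    exact_mod_cast hlt
  exact absurd (hm.2.trans h1) (not_le.2 hn.1)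

theorem exists_embedding :
    ∃ f : (Iio (ω * ω + 1 : Ordinal.{0})) → (Iio (ω + 1 : Ordinal.{0})) × (Iio (ω + 1 : Ordinal.{0})), IsEmbedding f := by
  obtain ⟨e, he⟩ := exists_code
  let D : ℕ → Set ((Iio (ω * ω + 1 : Ordinal.{0}))) := fun k => {x | ¬ Order.IsSuccLimit x.1 ∧ e x = k}
  have hD : ∀ m n x, x ∈ D m → x ∈ D n → m = n := fun m n x h1 h2 => h1.2.symm.trans h2.2
  have hDc : ∀ n, IsClopen (D n) := by
    intro n
    have hsub : (D n).Subsingleton := fun x hx y hy => he (hx.2.trans hy.2.symm)
    rcases hsub.eq_empty_or_singleton with h | ⟨x, h⟩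
    · rw [h]; exact isClopen_empty
    · have hx : x ∈ D n := by rw [h]; exact mem_singleton x
      rw [h]
      exact ⟨isClosed_singleton, isOpen_singleton_of_not_limit x hx.1⟩
  let f : (Iio (ω * ω + 1 : Ordinal.{0})) → (Iio (ω + 1 : Ordinal.{0})) × (Iio (ω + 1 : Ordinal.{0})) := fun x =>
    (toOmega block x, toOmega D x)
  have hf : Continuous f :=
    (continuous_toOmega block_disjoint fun n => isClopen_interval _ _).prodMk
      (continuous_toOmega hD hDc)
  have hinj : Function.Injective f := by
    intro x y hxy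
    have h1 : toOmega block x = toOmega block y := congrArg Prod.fst hxy
    have h2 : toOmega D x = toOmega D y := congrArg Prod.snd hxy
    by_contra hne
    by_cases hx : Order.IsSuccLimit x.1
    · by_cases hy : Order.IsSuccLimit y.1
      · -- both are limits
        wlog hlt : x.1 < y.1 generalizing x y
        · exact this hxy.symm h1.symm h2.symm (fun h => hne h.symm) hy hx
            (lt_of_le_of_ne (not_lt.1 hlt) fun h => hne (Subtype.ext h.symm))
        obtain ⟨b, hb⟩ := (isSuccPrelimit_iff_omega0_dvd.1 hx.isSuccPrelimit)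
        have hb0 : b ≠ 0 := by
          rintro rfl
          rw [mul_zero] at hb
          exact not_isSuccLimit_zero (hb ▸ hx)
        have hbω : b < ω := by
          have hy' : y.1 ≤ ω * ω := Order.lt_add_one_iff.1 y.2
          have : ω * b < ω * ω := by
            rw [← hb]
            exact hlt.trans_le hy'
          exact lt_of_mul_lt_mul_left this bot_le
        obtain ⟨k, rfl⟩ := Ordinal.lt_omega0.1 hbω
        obtain ⟨m, rfl⟩ : ∃ m, k = m + 1 := Nat.exists_eq_succ_of_ne_zero (by
          rintro rfl
          exact hb0 Nat.cast_zero)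
        have hxm : x ∈ block m := by
          refine ⟨?_, ?_⟩
          · rw [hb]
            have : (m : Ordinal.{0}) < ((m + 1 : ℕ) : Ordinal.{0}) := by
              exact_mod_cast Nat.lt_succ_self m
            exact mul_lt_mul_of_pos_left this omega0_pos
          · rw [hb]
            simp
        have hym : y ∈ block m := by
          rw [← toOmega_eq_fin_iff block_disjoint] at hxm ⊢
          rw [← h1]
          exact hxm
        have : y.1 ≤ x.1 := by
          rw [hb]
          have := hym.2
          simpa using this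
        exact absurd hlt (not_lt.2 this)
      · have hyD : y ∈ D (e y) := ⟨hy, rfl⟩
        have hxD : x ∈ D (e y) := by
          rw [← toOmega_eq_fin_iff hD] at hyD ⊢
          rw [h2]
          exact hyD
        exact hxD.1 hx
    · have hxD : x ∈ D (e x) := ⟨hx, rfl⟩
      have hyD : y ∈ D (e x) := by
        rw [← toOmega_eq_fin_iff hD] at hxD ⊢
        rw [← h2]
        exact hxD
      exact hne (he hyD.2.symm)
  exact ⟨f, (hf.isClosedEmbedding hinj).isEmbedding⟩

theorem delta_omega_sq (h : MonotonicallyNormal (Nabla (Iio (ω + 1 : Ordinal.{0})))) :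
    MonotonicallyNormal (Nabla (Iio (ω * ω + 1 : Ordinal.{0}))) := by
  obtain ⟨f, hf⟩ := exists_embedding
  exact MonotonicallyNormal.of_isEmbedding (nablaWeave_isEmbedding f hf) h

end Pool.Agent.H80Nabla
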